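import Mathlib
import Pool.Agent.H756.OD.Main

/-!
# Homogeneous nonlinearities of every degree: on average boundedly many closed orbits around the focus

Let `P (z) = ∑_{j ≤ n} c_j z ^ j z̄ ^ (n - j)` be an arbitrary homogeneous polynomial of degree
`n ≥ 2`, even or odd, and consider the planar systems `z' = (μ + i) z + P (z)`, `μ` real.  There is an
absolute constant `K` which bounds the mean, over the parameters `μ` in `[-M, M]`, `M ≥ 1`, of the
number of the closed orbits which wind counterclockwise around the origin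

* for `P` or for `-P`, whatever `P` is (after a reversal of the time `-P` corresponds to the focus
  `(μ - i) z`, so this is the choice of the direction of rotation of the focus, for a fixed `P`);
* for `P` itself, if the directions in which `P` turns counterclockwise have measure at most `1 / 4`;
  in particular if `P` turns nowhere counterclockwise.

If `P` does not turn clockwise in all directions then all closed orbits which surround the origin wind
counterclockwise, so that all of them are counted.

For even `n` the fields of `P` and `-P` are conjugate by `z ↦ -z` and the bound is in the starting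
library (`Pool.Agent.H811R2`), from which the reduction to an Abel equation, the typical points of a
trigonometric polynomial and the count are taken.  The case of odd `n` is new; it is based on a lower
bound for a single graph over a window (`Pool.Agent.H756.OD.win`) which uses no symmetry of `P`, and on
a count of the windows (`Pool.Agent.H756.OD.mean_bad`).
-/

set_option autoImplicit false

open Set MeasureTheory
open scoped ENNReal

namespace Pool.Agent.Results.MP_95e7ec_an.HomogeneousAllDegrees

/-- The homogeneous polynomial `P (z) = ∑_{j ≤ n} c_j z ^ j z̄ ^ (n - j)`. -/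
noncomputable def poly (n : ℕ) (c : ℕ → ℂ) (z : ℂ) : ℂ :=
  ∑ j ∈ Finset.range (n + 1), c j * (z ^ j * (starRingEnd ℂ) z ^ (n - j))

/-- The angular part of `P` in the direction `θ`: the imaginary part of `e^{-iθ} P (e^{iθ})`. -/
noncomputable def angular (n : ℕ) (c : ℕ → ℂ) (θ : ℝ) : ℝ :=
  ((starRingEnd ℂ) (Complex.exp (θ * Complex.I)) * poly n c (Complex.exp (θ * Complex.I))).im

/-- The vector field `(μ + i) z + P (z)`. -/
noncomputable def field (n : ℕ) (c : ℕ → ℂ) (μ : ℝ) (z : ℂ) : ℂ :=
  ((μ : ℂ) + Complex.I) * z + poly n c z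

/-- The closed orbits of `z' = V z` which wind counterclockwise around the origin: the ranges of the
periodic solutions `γ = exp (ρ + i ϑ)` with differentiable `ρ`, `ϑ` whose angle `ϑ` increases over a
period. -/
def orbitsCounterclockwise (V : ℂ → ℂ) : Set (Set ℂ) :=
  {C | ∃ (γ : ℝ → ℂ) (T : ℝ), 0 < T ∧ (∀ t, HasDerivAt γ (V (γ t)) t) ∧
    (∀ t, γ (t + T) = γ t) ∧ C = Set.range γ ∧
    ∃ ρ ϑ : ℝ → ℝ, Differentiable ℝ ρ ∧ Differentiable ℝ ϑ ∧
      (∀ t, γ t = Complex.exp (ρ t + ϑ t * Complex.I)) ∧ ϑ 0 < ϑ T}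

/-- The closed orbits of `z' = V z` which surround the origin: the ranges `C` of the periodic
solutions such that `0` is not in `C` and the component of `0` in the complement of `C` is bounded. -/
def orbitsAround (V : ℂ → ℂ) : Set (Set ℂ) :=
  {C | (∃ γ : ℝ → ℂ, ∃ T : ℝ, 0 < T ∧ (∀ t, HasDerivAt γ (V (γ t)) t) ∧
      (∀ t, γ (t + T) = γ t) ∧ C = Set.range γ) ∧
    (0 : ℂ) ∉ C ∧ Bornology.IsBounded (connectedComponentIn Cᶜ 0)}

/-- For every `M ≥ 1` the number of the closed orbits of `z' = (μ + i) z + P (z)` which wind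
counterclockwise around the origin has, as a function of `μ ∈ [-M, M]`, a measurable majorant whose
mean over `[-M, M]` is at most `K`, and it is greater than `N` only for a set of `μ ∈ [-M, M]` of
outer measure at most `2 M K / (N + 1)`. -/
def MeanBounded (K : ℝ) (n : ℕ) (c : ℕ → ℂ) : Prop :=
  ∀ M : ℝ, 1 ≤ M →
    (∃ g : ℝ → ℝ≥0∞, Measurable g ∧
      (∀ μ ∈ Icc (-M) M,
        (((orbitsCounterclockwise (field n c μ)).encard : ℕ∞) : ℝ≥0∞) ≤ g μ) ∧
      ∫⁻ μ in Icc (-M) M, g μ ≤ ENNReal.ofReal (K * (2 * M))) ∧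
    ∀ N : ℕ, volume {μ ∈ Icc (-M) M |
        (N : ℕ∞) < (orbitsCounterclockwise (field n c μ)).encard} ≤
      ENNReal.ofReal (K * (2 * M) / (N + 1))

lemma field_eq (n : ℕ) (c : ℕ → ℂ) (μ : ℝ) :
    field n c μ = Pool.Agent.H811R2.Quad.VH n c μ := rfl

lemma angular_eq {n : ℕ} (hn : 0 < n) (c : ℕ → ℂ) (θ : ℝ) :
    angular n c θ = (Pool.Agent.H811R2.Quad.Gn n c θ).im := by
  have h1 := Pool.Agent.H811R2.Quad.Gn_polar hn c 1 θ
  rw [Complex.ofReal_one, one_pow, one_mul, one_mul] at h1
  have h2 : poly n c (Complex.exp (θ * Complex.I)) =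
      Pool.Agent.H811R2.Quad.Gn n c θ * Complex.exp (θ * Complex.I) := h1
  have h3 : (starRingEnd ℂ) (Complex.exp (θ * Complex.I)) * Complex.exp (θ * Complex.I) = 1 := by
    rw [← Complex.exp_conj, map_mul, Complex.conj_ofReal, Complex.conj_I, ← Complex.exp_add]
    rw [show (θ : ℂ) * -Complex.I + θ * Complex.I = 0 by ring, Complex.exp_zero]
  unfold angular
  rw [h2]
  congr 1
  calc (starRingEnd ℂ) (Complex.exp (θ * Complex.I)) *
        (Pool.Agent.H811R2.Quad.Gn n c θ * Complex.exp (θ * Complex.I))
      = ((starRingEnd ℂ) (Complex.exp (θ * Complex.I)) * Complex.exp (θ * Complex.I)) *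
        Pool.Agent.H811R2.Quad.Gn n c θ := by ring
    _ = _ := by rw [h3, one_mul]

lemma meanBounded_of {K : ℝ} {n : ℕ} {c : ℕ → ℂ} (h : Pool.Agent.H756.OD.MB K n c) :
    MeanBounded K n c := by
  intro M hM
  obtain ⟨g, hg1, hg2, hg3⟩ := h M hM
  refine ⟨⟨g, hg1, hg2, hg3⟩, fun N => ?_⟩
  have hsub : {μ ∈ Icc (-M) M | (N : ℕ∞) < (orbitsCounterclockwise (field n c μ)).encard} ⊆
      {μ | ((N + 1 : ℕ) : ℝ≥0∞) ≤ g μ} ∩ Icc (-M) M := by
    rintro μ ⟨h1, h2⟩
    refine ⟨le_trans ?_ (hg2 μ h1), h1⟩
    have h3 : ((N + 1 : ℕ) : ℕ∞) ≤ (orbitsCounterclockwise (field n c μ)).encard := by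
      have := Order.add_one_le_of_lt h2
      exact_mod_cast this
    exact_mod_cast h3
  have hmk := meas_ge_le_lintegral_div (μ := volume.restrict (Icc (-M) M)) hg1.aemeasurable
    (ε := ((N + 1 : ℕ) : ℝ≥0∞)) (by simp) (by simp)
  have hms : MeasurableSet {μ | ((N + 1 : ℕ) : ℝ≥0∞) ≤ g μ} :=
    measurableSet_le measurable_const hg1
  rw [Measure.restrict_apply hms] at hmk
  refine (measure_mono hsub).trans (hmk.trans ?_)
  refine (ENNReal.div_le_div_right hg3 _).trans (le_of_eq ?_)
  rw [ENNReal.ofReal_div_of_pos (by positivity)]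
  congr 1
  rw [show ((N : ℝ) + 1) = ((N + 1 : ℕ) : ℝ) by push_cast; ring, ENNReal.ofReal_natCast]

/-- **Homogeneous nonlinearities of every degree.** There is a constant `K` such that for every
`n ≥ 2` and all complex numbers `c_0, …, c_n`, with `P (z) = ∑_{j ≤ n} c_j z ^ j z̄ ^ (n - j)`:

* the mean over `μ ∈ [-M, M]` of the number of the closed orbits of `z' = (μ + i) z + P (z)` which
  wind counterclockwise around the origin is at most `K` for every `M ≥ 1`, for `P` or for `-P`;
* it is so for `P` if the set of the directions in `[0, 2 π]` in which `P` turns counterclockwise has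
  measure at most `1 / 4`;
* if `P` does not turn clockwise in some direction then for every `μ` all closed orbits which surround
  the origin wind counterclockwise. -/
theorem result :
    ∃ K : ℝ, 0 ≤ K ∧ ∀ (n : ℕ) (c : ℕ → ℂ), 2 ≤ n →
      (MeanBounded K n c ∨ MeanBounded K n (fun j => -c j)) ∧
      (volume {θ ∈ Icc 0 (2 * Real.pi) | 0 < angular n c θ} ≤ ENNReal.ofReal (1 / 4) →
        MeanBounded K n c) ∧
      ((∃ θ : ℝ, 0 ≤ angular n c θ) →
        ∀ μ : ℝ, orbitsAround (field n c μ) ⊆ orbitsCounterclockwise (field n c μ)) := by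
  obtain ⟨K, hK0, hK⟩ := Pool.Agent.H756.OD.all_degrees
  refine ⟨K, hK0, fun n c hn => ?_⟩
  obtain ⟨h1, h2⟩ := hK n c hn
  have hn0 : 0 < n := by omega
  refine ⟨h1.imp meanBounded_of meanBounded_of, fun h => meanBounded_of (h2 ?_), ?_⟩
  · simpa only [angular_eq hn0] using h
  · rintro ⟨θ, hθ⟩ μ
    rw [angular_eq hn0] at hθ
    exact Pool.Agent.H756.OD.around_sub_ccw_VH hn ⟨θ, hθ⟩ μ

end Pool.Agent.Results.MP_95e7ec_an.HomogeneousAllDegrees
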