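import Mathlib
import Pool.Agent.U338.HC.E

/-!
# Limit cycles of one shape: a cubic bound

At most `(2 n + 3) ^ 3` limit cycles of a planar polynomial system of degree at most `n` are
pairwise homothetic (images of each other under maps `p ↦ a + s p`), and at most `(2 n + 3) ^ 2` are
pairwise translates. Nothing is assumed about their common shape, which need not be algebraic. More
generally, for every family of closed curves which depends polynomially, with degree at most `m`, on
`d` real parameters, at most `(2 m (n + 1) + 1) ^ d` limit cycles belong to the family, at regular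
members near which different parameters give different curves.

Proof. A member of the family is a limit cycle only if the field is tangent to it at all times; these
are polynomial equations of degree at most `m (n + 1)` in the parameters. A nearby solution of the
equations gives a closed orbit near the limit cycle, hence the limit cycle itself; so the parameter
is an isolated zero of a nonnegative polynomial `f` of degree at most `2 m (n + 1)`. After adding
`ζ ∑ c_i ^ (2 m (n + 1) + 2)` every isolated zero of `f` gives a critical point near it, and the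
critical points satisfy `c_i ^ (2 m (n + 1) + 1) = h_i(c)` with `h_i` of smaller degree, so there
are at most `(2 m (n + 1) + 1) ^ d` of them.
-/

set_option autoImplicit false

namespace Pool.Agent.Results.MP_95e7ec_an.HomotheticCycles

open MvPolynomial Filter Topology

/-- `C` is a closed orbit of the system `x' = P, y' = Q`: the image of a nonconstant periodic
solution (as in the frozen statement of the problem). -/
def IsClosedOrbit (P Q : MvPolynomial (Fin 2) ℝ) (C : Set (ℝ × ℝ)) : Prop :=
  ∃ γ : ℝ → ℝ × ℝ, ∃ T : ℝ, 0 < T ∧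
    (∀ t : ℝ, HasDerivAt γ (eval ![(γ t).1, (γ t).2] P, eval ![(γ t).1, (γ t).2] Q) t) ∧
    (∀ t : ℝ, γ (t + T) = γ t) ∧ (∃ s t : ℝ, γ s ≠ γ t) ∧ C = Set.range γ

/-- `C` is a limit cycle: a closed orbit such that some neighbourhood of it contains no other closed
orbit (as in the frozen statement of the problem). -/
def IsLimitCycle (P Q : MvPolynomial (Fin 2) ℝ) (C : Set (ℝ × ℝ)) : Prop :=
  IsClosedOrbit P Q C ∧ ∃ U : Set (ℝ × ℝ), IsOpen U ∧ C ⊆ U ∧
    ∀ C' : Set (ℝ × ℝ), IsClosedOrbit P Q C' → C' ⊆ U → C' = C

/-- `C'` is homothetic to `C`: its image under `p ↦ a + s p` with `s ≠ 0`. -/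
def Homothetic (C C' : Set (ℝ × ℝ)) : Prop :=
  ∃ (a : ℝ × ℝ) (s : ℝ), s ≠ 0 ∧ C' = (fun p => a + s • p) '' C

/-- `C'` is a translate of `C`. -/
def TranslateOf (C C' : Set (ℝ × ℝ)) : Prop := ∃ a : ℝ × ℝ, C' = (fun p => a + p) '' C

/-- The curve with parameter `c` of a family: `t ↦ ∑ₖ Mₖ(c) gₖ(t)`, with polynomials `Mₖ` and
functions `gₖ` of the time. -/
noncomputable def curve {d : ℕ} {κ : Type} [Fintype κ] (M : κ → MvPolynomial (Fin d) ℝ)
    (g : κ → ℝ → ℝ × ℝ) (c : Fin d → ℝ) (t : ℝ) : ℝ × ℝ := ∑ k, eval c (M k) • g k t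

/-- Let `P, Q` be polynomials of degree at most `n`.
(1) If finitely many limit cycles of `x' = P, y' = Q` are pairwise homothetic, their number is at
most `(2 n + 3) ^ 3`.
(2) If they are pairwise translates, their number is at most `(2 n + 3) ^ 2`.
(3) Let `c ↦ ∑ₖ Mₖ(c) gₖ(t)`, `c ∈ ℝᵈ`, be a family of closed curves, with polynomials `Mₖ` of degree
at most `m` and continuously differentiable functions `gₖ` of common period `T`. If each of finitely
many limit cycles is the image of a member of the family whose velocity has no zeros and whose image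
is different from the images of all other members with sufficiently close parameters, their number
is at most `(2 m (n + 1) + 1) ^ d`. -/
theorem result (n : ℕ) (P Q : MvPolynomial (Fin 2) ℝ) (hP : P.totalDegree ≤ n)
    (hQ : Q.totalDegree ≤ n) (S : Finset (Set (ℝ × ℝ))) (hS : ∀ C ∈ S, IsLimitCycle P Q C) :
    ((∀ C ∈ S, ∀ C' ∈ S, Homothetic C C') → S.card ≤ (2 * n + 3) ^ 3) ∧
    ((∀ C ∈ S, ∀ C' ∈ S, TranslateOf C C') → S.card ≤ (2 * n + 3) ^ 2) ∧
    (∀ (m d : ℕ) (κ : Type) [Fintype κ] (M : κ → MvPolynomial (Fin d) ℝ) (g g' : κ → ℝ → ℝ × ℝ)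
      (T : ℝ), (∀ k, (M k).totalDegree ≤ m) → (∀ k t, HasDerivAt (g k) (g' k t) t) →
      (∀ k, Continuous (g' k)) → 0 < T → (∀ k t, g k (t + T) = g k t) →
      (∀ C ∈ S, ∃ c : Fin d → ℝ, (∀ t, curve M g' c t ≠ 0) ∧ C = Set.range (curve M g c) ∧
        ∀ᶠ c' in 𝓝 c, Set.range (curve M g c') = Set.range (curve M g c) → c' = c) →
      S.card ≤ (2 * (m * (n + 1)) + 1) ^ d) := by
  have hS' : ∀ C ∈ S, Pool.Agent.U338.HC.IsLimitCycle P Q C := hS
  refine ⟨fun h => Pool.Agent.U338.HC.homothetic_bound P Q hP hQ S hS' h,
    fun h => Pool.Agent.U338.HC.translate_bound P Q hP hQ S hS' h, ?_⟩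
  intro m d κ _ M g g' T hM hg hg' hT hper h
  exact Pool.Agent.U338.HC.family_bound P Q hP hQ M hM g g' hg hg' T hT hper S
    fun C hC => ⟨hS' C hC, h C hC⟩

end Pool.Agent.Results.MP_95e7ec_an.HomotheticCycles
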