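import Mathlib
import Pool.Agent.H756.OD.Inner

/-!
# Homogeneous nonlinearities: the closed orbits close to the focus, summed over all traces

Let `P (z) = ∑_{j ≤ n} c_j z ^ j z̄ ^ (n - j)` be an arbitrary homogeneous polynomial of degree
`n ≥ 2`, even or odd, with `|P (z)| ≤ L` for `|z| = 1`, and consider the planar systems
`z' = (μ + i) z + P (z)`.  The nonlinearity is at most as large as the rotation in the disc
`|z| ^ (n - 1) L ≤ 1`.  There is an absolute constant `K` such that the number of the closed orbits in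
this disc which surround the origin, INTEGRATED OVER ALL `μ ∈ ℝ`, is at most `K`.

More generally, for all `A, a > 0`, the integral over all `μ` of the number of the closed orbits
which wind counterclockwise around the origin and which have points in the (small or large) disc
`|z| ^ (n - 1) L ≤ A` in directions of total measure at least `a` is at most `K (1 + A) ^ 2 / a`.

There is no condition on `P`, in contrast to `HomogeneousNonlinearities` (even degree) and
`HomogeneousAllDegrees` (`P` or `-P`), which count all closed orbits around the focus, on average over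
bounded sets of parameters.  The count of the library `Pool.Agent.H811R2` is used for a part of the
periodic graphs (`Pool.Agent.H756.OD.total_sub`).
-/

set_option autoImplicit false

open Set MeasureTheory
open scoped ENNReal

namespace Pool.Agent.Results.MP_95e7ec_an.InnerOrbits

/-- The homogeneous polynomial `P (z) = ∑_{j ≤ n} c_j z ^ j z̄ ^ (n - j)`. -/
noncomputable def poly (n : ℕ) (c : ℕ → ℂ) (z : ℂ) : ℂ :=
  ∑ j ∈ Finset.range (n + 1), c j * (z ^ j * (starRingEnd ℂ) z ^ (n - j))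

/-- The vector field `(μ + i) z + P (z)`. -/
noncomputable def field (n : ℕ) (c : ℕ → ℂ) (μ : ℝ) (z : ℂ) : ℂ :=
  ((μ : ℂ) + Complex.I) * z + poly n c z

/-- The closed orbits of `z' = V z` which wind counterclockwise around the origin: the ranges of the
periodic solutions `γ = exp (ρ + i ϑ)` with differentiable `ρ`, `ϑ` whose angle `ϑ` increases over a
period. -/
def orbitsCounterclockwise (V : ℂ → ℂ) : Set (Set ℂ) :=
  {C | ∃ (γ : ℝ → ℂ) (T : ℝ), 0 < T ∧ (∀ t, HasDerivAt γ (V (γ t)) t) ∧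
    (∀ t, γ (t + T) = γ t) ∧ C = Set.range γ ∧
    ∃ ρ ϑ : ℝ → ℝ, Differentiable ℝ ρ ∧ Differentiable ℝ ϑ ∧
      (∀ t, γ t = Complex.exp (ρ t + ϑ t * Complex.I)) ∧ ϑ 0 < ϑ T}

/-- The closed orbits of `z' = V z` which surround the origin: the ranges `C` of the periodic
solutions such that `0` is not in `C` and the component of `0` in the complement of `C` is bounded. -/
def orbitsAround (V : ℂ → ℂ) : Set (Set ℂ) :=
  {C | (∃ γ : ℝ → ℂ, ∃ T : ℝ, 0 < T ∧ (∀ t, HasDerivAt γ (V (γ t)) t) ∧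
      (∀ t, γ (t + T) = γ t) ∧ C = Set.range γ) ∧
    (0 : ℂ) ∉ C ∧ Bornology.IsBounded (connectedComponentIn Cᶜ 0)}

/-- The directions in `[0, 2 π]` in which `C` has a point in the disc `|z| ^ m L ≤ A`. -/
def directions (m : ℕ) (L A : ℝ) (C : Set ℂ) : Set ℝ :=
  {θ | θ ∈ Icc 0 (2 * Real.pi) ∧
    ∃ r : ℝ, 0 < r ∧ r ^ m * L ≤ A ∧ (r : ℂ) * Complex.exp (θ * Complex.I) ∈ C}

/-- The closed orbits of `z' = (μ + i) z + P (z)` which wind counterclockwise around the origin and
have points in the disc `|z| ^ (n - 1) L ≤ A` in directions of total measure at least `a`. -/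
def innerOrbits (n : ℕ) (c : ℕ → ℂ) (L A a μ : ℝ) : Set (Set ℂ) :=
  {C | C ∈ orbitsCounterclockwise (field n c μ) ∧
    ENNReal.ofReal a ≤ volume (directions (n - 1) L A C)}

/-- The closed orbits of `z' = (μ + i) z + P (z)` in the disc `|z| ^ (n - 1) L ≤ 1` which surround
the origin. -/
def discOrbits (n : ℕ) (c : ℕ → ℂ) (L μ : ℝ) : Set (Set ℂ) :=
  {C | C ∈ orbitsAround (field n c μ) ∧ ∀ z ∈ C, ‖z‖ ^ (n - 1) * L ≤ 1}

/-- The function `N` of `μ ∈ ℝ` has a measurable majorant whose integral over the whole line is at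
most `B`, and it is greater than `k` only for a set of `μ` of outer measure at most `B / (k + 1)`. -/
def IntegralAtMost (N : ℝ → ℕ∞) (B : ℝ) : Prop :=
  (∃ g : ℝ → ℝ≥0∞, Measurable g ∧ (∀ μ, ((N μ : ℕ∞) : ℝ≥0∞) ≤ g μ) ∧
    ∫⁻ μ, g μ ≤ ENNReal.ofReal B) ∧
  ∀ k : ℕ, volume {μ | (k : ℕ∞) < N μ} ≤ ENNReal.ofReal (B / (k + 1))

lemma integralAtMost_of {N : ℝ → ℕ∞} {B : ℝ} {g : ℝ → ℝ≥0∞} (hg1 : Measurable g)
    (hg2 : ∀ μ, ((N μ : ℕ∞) : ℝ≥0∞) ≤ g μ) (hg3 : ∫⁻ μ, g μ ≤ ENNReal.ofReal B) :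
    IntegralAtMost N B := by
  refine ⟨⟨g, hg1, hg2, hg3⟩, fun k => ?_⟩
  have hsub : {μ | (k : ℕ∞) < N μ} ⊆ {μ | ((k + 1 : ℕ) : ℝ≥0∞) ≤ g μ} := by
    intro μ h2
    refine le_trans ?_ (hg2 μ)
    have h3 : ((k + 1 : ℕ) : ℕ∞) ≤ N μ := by
      have := Order.add_one_le_of_lt (show (k : ℕ∞) < N μ from h2)
      exact_mod_cast this
    exact_mod_cast h3
  have hmk := meas_ge_le_lintegral_div (μ := (volume : Measure ℝ)) hg1.aemeasurable
    (ε := ((k + 1 : ℕ) : ℝ≥0∞)) (by simp) (by simp)
  refine (measure_mono hsub).trans (hmk.trans ?_)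
  refine (ENNReal.div_le_div_right hg3 _).trans (le_of_eq ?_)
  rw [ENNReal.ofReal_div_of_pos (by positivity)]
  congr 1
  rw [show ((k : ℝ) + 1) = ((k + 1 : ℕ) : ℝ) by push_cast; ring, ENNReal.ofReal_natCast]

/-- **The closed orbits close to the focus, summed over all traces.** There is a constant `K` such
that for every `n ≥ 2`, all complex numbers `c_0, …, c_n` and every `L > 0` with `|P (z)| ≤ L` for
`|z| = 1`, where `P (z) = ∑_{j ≤ n} c_j z ^ j z̄ ^ (n - j)`:

* for all `A, a > 0` the integral over all `μ ∈ ℝ` of the number of the closed orbits of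
  `z' = (μ + i) z + P (z)` which wind counterclockwise around the origin and have points in the disc
  `|z| ^ (n - 1) L ≤ A` in directions of total measure at least `a` is at most `K (1 + A) ^ 2 / a`;
* the integral over all `μ ∈ ℝ` of the number of the closed orbits of `z' = (μ + i) z + P (z)` in the
  disc `|z| ^ (n - 1) L ≤ 1` which surround the origin is at most `K`. -/
theorem result :
    ∃ K : ℝ, 0 ≤ K ∧ ∀ (n : ℕ) (c : ℕ → ℂ), 2 ≤ n → ∀ L : ℝ, 0 < L →
      (∀ z : ℂ, ‖z‖ = 1 → ‖poly n c z‖ ≤ L) →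
      (∀ A a : ℝ, 0 < A → 0 < a →
        IntegralAtMost (fun μ => (innerOrbits n c L A a μ).encard) (K * ((1 + A) ^ 2 / a))) ∧
      IntegralAtMost (fun μ => (discOrbits n c L μ).encard) K := by
  obtain ⟨K, hK0, hK⟩ := Pool.Agent.H756.OD.inner_total
  refine ⟨K, hK0, fun n c hn L hL hP => ?_⟩
  obtain ⟨m, rfl⟩ : ∃ m, n = m + 1 := ⟨n - 1, by omega⟩
  have hm1 : 1 ≤ m := by omega
  have hG : ∀ θ, ‖Pool.Agent.H811R2.Quad.Gn (m + 1) c θ‖ ≤ L := by
    intro θ
    have h1 := Pool.Agent.H811R2.Quad.Gn_polar (by omega : 0 < m + 1) c 1 θ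
    rw [Complex.ofReal_one, one_pow, one_mul, one_mul] at h1
    have h2 : poly (m + 1) c (Complex.exp (θ * Complex.I)) =
        Pool.Agent.H811R2.Quad.Gn (m + 1) c θ * Complex.exp (θ * Complex.I) := h1
    have h3 := hP (Complex.exp (θ * Complex.I)) (Complex.norm_exp_ofReal_mul_I θ)
    rwa [h2, norm_mul, Complex.norm_exp_ofReal_mul_I, mul_one] at h3
  constructor
  · intro A a hA ha
    obtain ⟨g, hg1, hg2, hg3⟩ := hK m c hm1 L hL hG A a hA ha
    exact integralAtMost_of hg1 hg2 hg3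
  · obtain ⟨g, hg1, hg2, hg3⟩ := hK m c hm1 L hL hG 1 (2 * Real.pi) one_pos (by positivity)
    refine integralAtMost_of hg1 (fun μ => le_trans ?_ (hg2 μ)) (hg3.trans ?_)
    · have hsub : discOrbits (m + 1) c L μ ⊆ Pool.Agent.H756.OD.inner
          (Pool.Agent.H811R2.Quad.VH (m + 1) c μ) m L 1 (2 * Real.pi) := by
        rintro C ⟨hC, hdisc⟩
        exact Pool.Agent.H756.OD.around_disc hm1 hG hC hdisc
      exact_mod_cast encard_le_encard hsub
    · apply ENNReal.ofReal_le_ofReal
      have h1 : ((1:ℝ) + 1) ^ 2 / (2 * Real.pi) ≤ 1 := by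
        rw [div_le_one (by positivity)]
        have := Real.pi_gt_three
        linarith
      calc K * ((1 + 1) ^ 2 / (2 * Real.pi)) ≤ K * 1 := mul_le_mul_of_nonneg_left h1 hK0
        _ = K := mul_one K

end Pool.Agent.Results.MP_95e7ec_an.InnerOrbits
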