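import Mathlib
import Pool.Agent.U588.TR.TR5
import Pool.Agent.U588.TR.TR6
import Pool.Agent.U588.TR.GZ2

/-! # The mean number of closed orbits in one-parameter families: a sharp bound free of the degree

Let `X, Z` be planar `C¹` vector fields, for instance polynomial ones, of any degree, with
`Z × X > 0` and `div Z ≥ 0` in a region of the ring `r₁ ≤ |p| ≤ r₂` in which the polar angle
increases along the orbits. Then the numbers `N(s)` of the closed orbits of `X + s Z` in the region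
satisfy `∫ N(s) / κ(s) ds ≤ log (flux of Z through |p| = r₂ / flux of Z through |p| = r₁)`, `κ(s)` a
bound for `|div (X + s Z)| / div Z`. So the mean of `N(s)` over the parameters for which closed
orbits may exist is at most this logarithm, whatever the degree. For the family `X + s p` the bound
is `2 log (r₂ / r₁)`, and the constant is best possible, even for polynomial systems. -/

open Set MeasureTheory
open scoped ENNReal

namespace Pool.Agent.Results.MP_95e7ec_an.TraceFamilyMean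

/-- `x P + y Q`; this is `r r'` along the orbits of `X = (P, Q)`. -/
def radial (X : ℝ × ℝ → ℝ × ℝ) (p : ℝ × ℝ) : ℝ := p.1 * (X p).1 + p.2 * (X p).2

/-- `x Q - y P`; this is `r ^ 2 θ'` along the orbits of `X = (P, Q)`. -/
def angular (X : ℝ × ℝ → ℝ × ℝ) (p : ℝ × ℝ) : ℝ := p.1 * (X p).2 - p.2 * (X p).1

/-- The cross product `Z × X`. -/
def cross (Z X : ℝ × ℝ → ℝ × ℝ) (p : ℝ × ℝ) : ℝ := (Z p).1 * (X p).2 - (Z p).2 * (X p).1

/-- The divergence `P_x + Q_y` of `X = (P, Q)`. -/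
noncomputable def divergence (X : ℝ × ℝ → ℝ × ℝ) (p : ℝ × ℝ) : ℝ :=
  (fderiv ℝ X p (1, 0)).1 + (fderiv ℝ X p (0, 1)).2

/-- The flux of `Z` through the circle of radius `r` about the origin. -/
noncomputable def flux (Z : ℝ × ℝ → ℝ × ℝ) (r : ℝ) : ℝ :=
  ∫ t in (0 : ℝ)..(2 * Real.pi), r * ((Z (r * Real.cos t, r * Real.sin t)).1 * Real.cos t +
    (Z (r * Real.cos t, r * Real.sin t)).2 * Real.sin t)

/-- The vector field `X + s Z`. -/
def family (X Z : ℝ × ℝ → ℝ × ℝ) (s : ℝ) (p : ℝ × ℝ) : ℝ × ℝ := X p + s • Z p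

/-- The set of the closed orbits (the images of the nonconstant periodic solutions) of the vector
field `X` which are contained in `A`. -/
def closedOrbitsIn (X : ℝ × ℝ → ℝ × ℝ) (A : Set (ℝ × ℝ)) : Set (Set (ℝ × ℝ)) :=
  {C | (∃ γ : ℝ → ℝ × ℝ, ∃ T : ℝ, 0 < T ∧ (∀ t : ℝ, HasDerivAt γ (X (γ t)) t) ∧
    (∀ t : ℝ, γ (t + T) = γ t) ∧ (∃ a b : ℝ, γ a ≠ γ b) ∧ C = range γ) ∧ C ⊆ A}

/-- `A` meets every open ray from the origin in an interval. -/
def StarLike (A : Set (ℝ × ℝ)) : Prop :=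
  ∀ t : ℝ, {r : ℝ | 0 < r ∧ (r * Real.cos t, r * Real.sin t) ∈ A}.OrdConnected

/-- The ring `r₁ ≤ |p| ≤ r₂`. -/
def annulus (r₁ r₂ : ℝ) : Set (ℝ × ℝ) :=
  {p | r₁ ^ 2 ≤ p.1 ^ 2 + p.2 ^ 2 ∧ p.1 ^ 2 + p.2 ^ 2 ≤ r₂ ^ 2}

/-- The closed disc of radius `R` about the origin. -/
def disc (R : ℝ) : Set (ℝ × ℝ) := {p | p.1 ^ 2 + p.2 ^ 2 ≤ R ^ 2}

/-- **The mean number of closed orbits in one-parameter families.**

(i) Let `X, Z` be `C¹` vector fields on the plane, `0 < r₁ ≤ r₂`, and let `A` be a subset of the ring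
`r₁ ≤ |p| ≤ r₂` which meets every ray from the origin in an interval; let `S` be a set of parameters.
Suppose that `Z × X > 0` on `A`, that the polar angle increases in `A` along the orbits of `X + s Z`
for `s ∈ S`, that `div Z ≥ 0` on the ring, that the flux of `Z` through `|p| = r₁` is positive, and
that `m div Z ≤ div X ≤ M div Z` on `A`, `m < M`. Then the number of the closed orbits of `X + s Z`
in `A`, `s ∈ S`, has a measurable majorant `G` with
`∫ G(s) / max(M + s, -m - s) ds ≤ log (flux Z r₂ / flux Z r₁)`.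

(ii) If moreover `m div Z ≤ div X ≤ M div Z` on the disc `|p| ≤ r₂`, then for `s ∈ S` the field
`X + s Z` has no closed orbit in `A` unless `-M ≤ s ≤ -m`, and the number has a measurable majorant
`G` with `∫ G ≤ (M - m) log (flux Z r₂ / flux Z r₁)`.

(iii) In particular, for the family `X + s p` (`p` the position vector): if `x Q - y P > 0` and
`m ≤ div X ≤ M` on `A`, `m < M`, then there is such a `G` for all real `s` with
`∫ G(s) / max(M + 2 s, -m - 2 s) ds ≤ log (r₂ / r₁)`. If `m ≤ div X ≤ M` on the disc `|p| ≤ r₂`,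
then there is no closed orbit in `A` unless `-M/2 ≤ s ≤ -m/2`, and there is a `G` with
`∫ G ≤ (M - m) log (r₂ / r₁)`; the mean of this `G` over these `s` is at most `2 log (r₂ / r₁)`.

(iv) Without a lower cut-off, for the family `X + s p`: let `A` be a subset of the disc `|p| ≤ R`
which meets every ray in an interval, with `x Q - y P > 0` on `A`; let
`|div X p - div X 0| ≤ L |p|` for `|p| ≤ R`, and `|d log r / dθ| ≤ κ` on `A` for the fields
`X + s p`, `s ∈ S`. Then there is such a `G` for `s ∈ S` with `∫ G ≤ 2 L R exp (π κ)`.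

(v) The constant `1` in (iii) is best possible, for polynomial vector fields and `A` a ring: for
every `ε > 0` there are polynomials `P, Q`, numbers `R > 1` and `c, M > 0` and `n` such that
`x Q - y P > 0` for `p ≠ 0`, `|div X| ≤ M` on the disc `|p| ≤ R`, and `X + s p` has at least `n`
closed orbits in the ring `1 ≤ |p| ≤ R` whenever `|s| ≤ c`, where `2 c n / (M + 2 c)`, which is at
most the first integral in (iii), is at least `(1 - ε) log R`. -/
theorem result :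
    (∀ X Z : ℝ × ℝ → ℝ × ℝ, ContDiff ℝ 1 X → ContDiff ℝ 1 Z → ∀ (A : Set (ℝ × ℝ)) (r₁ r₂ : ℝ),
      0 < r₁ → r₁ ≤ r₂ → A ⊆ annulus r₁ r₂ → StarLike A → (∀ p ∈ A, 0 < cross Z X p) →
      ∀ S : Set ℝ, (∀ s ∈ S, ∀ p ∈ A, 0 < angular (family X Z s) p) →
      (∀ p ∈ annulus r₁ r₂, 0 ≤ divergence Z p) → 0 < flux Z r₁ → ∀ m M : ℝ, m < M →
      (∀ p ∈ A, m * divergence Z p ≤ divergence X p ∧ divergence X p ≤ M * divergence Z p) →
      ∃ G : ℝ → ℝ≥0∞, Measurable G ∧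
        (∀ s ∈ S, ((closedOrbitsIn (family X Z s) A).encard : ℝ≥0∞) ≤ G s) ∧
        ∫⁻ s, G s / ENNReal.ofReal (max (M + s) (-m - s)) ≤
          ENNReal.ofReal (Real.log (flux Z r₂ / flux Z r₁))) ∧
    (∀ X Z : ℝ × ℝ → ℝ × ℝ, ContDiff ℝ 1 X → ContDiff ℝ 1 Z → ∀ (A : Set (ℝ × ℝ)) (r₁ r₂ : ℝ),
      0 < r₁ → r₁ ≤ r₂ → A ⊆ annulus r₁ r₂ → StarLike A → (∀ p ∈ A, 0 < cross Z X p) →
      ∀ S : Set ℝ, (∀ s ∈ S, ∀ p ∈ A, 0 < angular (family X Z s) p) →
      (∀ p ∈ annulus r₁ r₂, 0 ≤ divergence Z p) → 0 < flux Z r₁ → ∀ m M : ℝ, m < M →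
      (∀ p ∈ disc r₂, m * divergence Z p ≤ divergence X p ∧
        divergence X p ≤ M * divergence Z p) →
      (∀ s ∈ S, s ∉ Icc (-M) (-m) → closedOrbitsIn (family X Z s) A = ∅) ∧
      ∃ G : ℝ → ℝ≥0∞, Measurable G ∧
        (∀ s ∈ S, ((closedOrbitsIn (family X Z s) A).encard : ℝ≥0∞) ≤ G s) ∧
        ∫⁻ s, G s ≤ ENNReal.ofReal ((M - m) * Real.log (flux Z r₂ / flux Z r₁))) ∧
    (∀ X : ℝ × ℝ → ℝ × ℝ, ContDiff ℝ 1 X → ∀ (A : Set (ℝ × ℝ)) (r₁ r₂ : ℝ),
      0 < r₁ → r₁ ≤ r₂ → A ⊆ annulus r₁ r₂ → StarLike A → (∀ p ∈ A, 0 < angular X p) →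
      ∀ m M : ℝ,
      (m < M → (∀ p ∈ A, m ≤ divergence X p ∧ divergence X p ≤ M) →
        ∃ G : ℝ → ℝ≥0∞, Measurable G ∧
          (∀ s, ((closedOrbitsIn (family X id s) A).encard : ℝ≥0∞) ≤ G s) ∧
          ∫⁻ s, G s / ENNReal.ofReal (max (M + 2 * s) (-m - 2 * s)) ≤
            ENNReal.ofReal (Real.log (r₂ / r₁))) ∧
      ((∀ p ∈ disc r₂, m ≤ divergence X p ∧ divergence X p ≤ M) →
        (∀ s ∉ Icc (-M / 2) (-m / 2), closedOrbitsIn (family X id s) A = ∅) ∧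
        ∃ G : ℝ → ℝ≥0∞, Measurable G ∧
          (∀ s, ((closedOrbitsIn (family X id s) A).encard : ℝ≥0∞) ≤ G s) ∧
          ∫⁻ s, G s ≤ ENNReal.ofReal ((M - m) * Real.log (r₂ / r₁)))) ∧
    (∀ X : ℝ × ℝ → ℝ × ℝ, ContDiff ℝ 1 X → ∀ (A : Set (ℝ × ℝ)) (R : ℝ), 0 ≤ R → A ⊆ disc R →
      StarLike A → (∀ p ∈ A, 0 < angular X p) →
      ∀ L κ : ℝ, 0 ≤ L → (∀ p ∈ disc R,
        |divergence X p - divergence X 0| ≤ L * Real.sqrt (p.1 ^ 2 + p.2 ^ 2)) →
      ∀ S : Set ℝ, (∀ s ∈ S, ∀ p ∈ A,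
        |radial (family X id s) p| ≤ κ * angular (family X id s) p) →
      ∃ G : ℝ → ℝ≥0∞, Measurable G ∧
        (∀ s ∈ S, ((closedOrbitsIn (family X id s) A).encard : ℝ≥0∞) ≤ G s) ∧
        ∫⁻ s, G s ≤ ENNReal.ofReal (2 * L * R * Real.exp (Real.pi * κ))) ∧
    (∀ ε : ℝ, 0 < ε → ∃ (P Q : MvPolynomial (Fin 2) ℝ) (X : ℝ × ℝ → ℝ × ℝ) (R c M : ℝ) (n : ℕ),
      (∀ p : ℝ × ℝ, X p = (MvPolynomial.eval ![p.1, p.2] P, MvPolynomial.eval ![p.1, p.2] Q)) ∧
      1 < R ∧ 0 < c ∧ 0 < M ∧ (∀ p : ℝ × ℝ, p ≠ 0 → 0 < angular X p) ∧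
      (∀ p ∈ disc R, |divergence X p| ≤ M) ∧
      (∀ s : ℝ, |s| ≤ c → (n : ℕ∞) ≤ (closedOrbitsIn (family X id s) (annulus 1 R)).encard) ∧
      (1 - ε) * Real.log R ≤ 2 * c * n / (M + 2 * c)) := by
  have hfam : ∀ (X : ℝ × ℝ → ℝ × ℝ) (s : ℝ), family X id s = U588.TR.fam X s := fun _ _ => rfl
  refine ⟨fun X Z hX hZ A r₁ r₂ h1 h12 hA hst hcr S hpos hdiv hfl m M hlt hmM => ?_,
    fun X Z hX hZ A r₁ r₂ h1 h12 hA hst hcr S hpos hdiv hfl m M hlt hmM => ?_,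
    fun X hX A r₁ r₂ h1 h12 hA hst hpos m M => ⟨fun hlt hmM => ?_, fun hmM => ?_⟩,
    fun X hX A R hR hA hst hpos L κ hL0 hL S hκ => ?_, fun ε hε => ?_⟩
  · exact U588.TR.weighted_g hX hZ hst hcr S hpos h1 h12 hA (fun p hp1 hp2 => hdiv p ⟨hp1, hp2⟩)
      hfl hlt hmM
  · exact U588.TR.global_g hX hZ hst hcr S hpos h1 h12 hA (fun p hp1 hp2 => hdiv p ⟨hp1, hp2⟩)
      hfl hlt hmM
  · exact U588.TR.weighted_mean hX hst hpos h1 h12 hA hlt hmM
  · exact U588.TR.global_mean hX hst hpos h1 h12 hA hmM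
  · refine U588.TR.focus_mean hX hst hpos hR hA hL0 hL S (fun s hs p hp => ?_)
    have h1 := hκ s hs p hp
    have h2 : radial (family X id s) p = U588.TR.rd X p + s * (p.1 ^ 2 + p.2 ^ 2) := by
      simp only [radial, family, U588.TR.rd, Prod.fst_add, Prod.snd_add, Prod.smul_fst,
        Prod.smul_snd, smul_eq_mul, id]
      ring
    have h3 : angular (family X id s) p = U588.TR.an X p := by
      simp only [angular, family, U588.TR.an, Prod.fst_add, Prod.snd_add, Prod.smul_fst,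
        Prod.smul_snd, smul_eq_mul, id]
      ring
    rwa [h2, h3] at h1
  · obtain ⟨H, R, c, M, n, h1, h2, h3, h4, h5, h6⟩ := U588.TR.sharp hε
    obtain ⟨P, Q, hPQ⟩ := U588.TR.rsys_poly H
    refine ⟨P, Q, U588.TR.rsys H, R, c, M, n, hPQ, h1, h2, h3, fun p hp => ?_, h4, h5, h6⟩
    have h7 : angular (U588.TR.rsys H) p = p.1 ^ 2 + p.2 ^ 2 := U588.TR.rsys_an H p
    rw [h7]
    by_contra hcon
    apply hp
    have e1 : p.1 = 0 := by nlinarith [sq_nonneg p.1, sq_nonneg p.2]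
    have e2 : p.2 = 0 := by nlinarith [sq_nonneg p.1, sq_nonneg p.2]
    exact Prod.ext e1 e2

end Pool.Agent.Results.MP_95e7ec_an.TraceFamilyMean
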